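import Pool.Agent.L0h82.CH.Defs

/-! # Project CH, module SUP: chains of singular cardinality with long well-ordered subchains -/

set_option autoImplicit false

open Cardinal Set

namespace Pool.Agent.L0h68.CH

open Pool.Agent.L0h82.CH

universe u

/-- the downward closure of the range -/
def cut {C : Type u} [LinearOrder C] {A : Type u} (g : A → C) : Set C := {x | ∃ a, x ≤ g a}

theorem cut_total {C : Type u} [LinearOrder C] {A B : Type u} (g : A → C) (h : B → C) :
    cut g ⊆ cut h ∨ cut h ⊆ cut g := by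
  by_contra hcon
  push Not at hcon
  obtain ⟨h1, h2⟩ := hcon
  obtain ⟨x, ⟨a, hx⟩, hx'⟩ := Set.not_subset.1 h1
  obtain ⟨y, ⟨b, hy⟩, hy'⟩ := Set.not_subset.1 h2
  rcases le_total x y with h | h
  · exact hx' ⟨b, h.trans hy⟩
  · exact hy' ⟨a, h.trans hx⟩

theorem cut_le {C : Type u} [LinearOrder C] {c d : Cardinal.{u}} (hd : d.IsRegular)
    (g : c.ord.ToType → C) (h : d.ord.ToType → C) (hh : StrictMono h)
    (h1 : cut g ⊆ cut h) (h2 : cut h ⊆ cut g) : d ≤ c := by
  have h3 : ∀ a, ∃ b, g a ≤ h b := fun a => h1 ⟨a, le_rfl⟩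
  choose F hF using h3
  have h4 : IsCofinal (range F) := by
    intro b
    obtain ⟨a, ha⟩ := h2 (show h b ∈ cut h from ⟨b, le_rfl⟩)
    exact ⟨F a, mem_range_self a, hh.le_iff_le.1 (ha.trans (hF a))⟩
  have h5 := Order.cof_le h4
  rw [Ordinal.cof_toType, hd.cof_ord] at h5
  refine h5.trans (mk_range_le.trans ?_)
  rw [mk_ord_toType]

/-- the next element -/
noncomputable def nx {A : Type u} [LinearOrder A] [WellFoundedLT A] [NoMaxOrder A] (a : A) : A :=
  (wellFounded_lt (α := A)).min {b | a < b} (exists_gt a)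

theorem lt_nx {A : Type u} [LinearOrder A] [WellFoundedLT A] [NoMaxOrder A] (a : A) : a < nx a :=
  (wellFounded_lt (α := A)).min_mem {b | a < b} (exists_gt a)

theorem nx_le {A : Type u} [LinearOrder A] [WellFoundedLT A] [NoMaxOrder A] {a b : A}
    (h : a < b) : nx a ≤ b :=
  not_lt.1 ((wellFounded_lt (α := A)).not_lt_min {b | a < b} h)

theorem nx_mono {A : Type u} [LinearOrder A] [WellFoundedLT A] [NoMaxOrder A] :
    StrictMono (nx : A → A) := fun _ b h => (nx_le h).trans_lt (lt_nx b)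

theorem main {C : Type u} [LinearOrder C] {ι : Type u} (k : ι → Cardinal.{u})
    (hreg : ∀ i, (k i).IsRegular) (hι : ∀ i, #ι < k i) (G : ∀ c : Cardinal.{u}, c.ord.ToType → C)
    (hG : ∀ i, StrictMono (G (k i))) : ∃ (S : Set C) (f : C → C), StrictMonoOn f S ∧
      (∀ x ∈ S, f x ≠ x) ∧ ∀ i, k i ≤ #S := by
  classical
  have hs : ∃ s : ∀ c : Cardinal.{u}, c.ord.ToType → c.ord.ToType, ∀ c, ℵ₀ ≤ c →
      StrictMono (s c) ∧ ∀ a, a < s c a := by
    have h1 : ∀ c : Cardinal.{u}, ∃ s : c.ord.ToType → c.ord.ToType, ℵ₀ ≤ c →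
        StrictMono s ∧ ∀ a, a < s a := by
      intro c
      by_cases hc : ℵ₀ ≤ c
      · have := noMaxOrder hc
        exact ⟨nx, fun _ => ⟨nx_mono, lt_nx⟩⟩
      · exact ⟨id, fun h => absurd h hc⟩
    choose s hs using h1
    exact ⟨s, hs⟩
  obtain ⟨s, hs⟩ := hs
  have hinf : ∀ i, ℵ₀ ≤ k i := fun i => (hreg i).aleph0_le
  -- the cuts of equal index
  have h1 : ∀ i j, cut (G (k i)) ⊆ cut (G (k j)) → cut (G (k j)) ⊆ cut (G (k i)) → k i = k j :=
    fun i j hij hji => le_antisymm (cut_le (hreg i) _ _ (hG i) hji hij)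
      (cut_le (hreg j) _ _ (hG j) hij hji)
  let T : ∀ i, Set (k i).ord.ToType := fun i => {a | ∀ j, ¬ cut (G (k i)) ⊆ cut (G (k j)) →
    G (k i) a ∉ cut (G (k j))}
  have hT : ∀ i, k i ≤ #(T i) := by
    intro i
    have h2 : ∀ j, ∃ b : (k i).ord.ToType, ¬ cut (G (k i)) ⊆ cut (G (k j)) →
        ∀ a, b ≤ a → G (k i) a ∉ cut (G (k j)) := by
      intro j
      by_cases h3 : cut (G (k i)) ⊆ cut (G (k j))
      · have h4 : Nonempty (k i).ord.ToType := by
          rw [← mk_ne_zero_iff, mk_ord_toType]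
          exact ne_of_gt (aleph0_pos.trans_le (hinf i))
        exact ⟨Classical.choice h4, fun h => absurd h3 h⟩
      · obtain ⟨x, ⟨b, hx⟩, hx'⟩ := Set.not_subset.1 h3
        refine ⟨b, fun _ a hab h => hx' ?_⟩
        obtain ⟨b', hb'⟩ := h
        exact ⟨b', hx.trans (((hG i).monotone hab).trans hb')⟩
    choose b hb using h2
    have h3 : ¬ IsCofinal (range b) := by
      intro h3
      have h4 := Order.cof_le h3
      rw [Ordinal.cof_toType, (hreg i).cof_ord] at h4
      exact absurd ((h4.trans mk_range_le).trans_lt (hι i)) (lt_irrefl _)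
    have h4 : ∃ a, ∀ j, b j < a := by
      by_contra hcon
      push Not at hcon
      refine h3 fun a => ?_
      obtain ⟨j, hj⟩ := hcon a
      exact ⟨b j, mem_range_self j, hj⟩
    obtain ⟨a, ha⟩ := h4
    have h5 : Ici a ⊆ T i := fun a' ha' j hj => hb j hj a' ((ha j).le.trans ha')
    have h6 : k i ≤ #(Ici a) := by
      by_contra hcon
      rw [not_le] at hcon
      have h7 : #(Iio a) < k i := by
        have := mk_Iio_lt a (by rw [mk_ord_toType, Ordinal.type_toType])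
        rwa [mk_ord_toType] at this
      have h8 : #(Iio a ∪ Ici a : Set (k i).ord.ToType) < k i :=
        (mk_union_le _ _).trans_lt (add_lt_of_lt (hinf i) h7 hcon)
      rw [Iio_union_Ici, mk_univ, mk_ord_toType] at h8
      exact lt_irrefl _ h8
    exact h6.trans (mk_le_mk_of_subset h5)
  let S : Set C := {x | ∃ i, ∃ a ∈ T i, G (k i) a = x}
  have hS : ∀ x : C, ∃ (i : S → ι), True := fun x => ⟨fun x => Classical.choose x.2, trivial⟩
  have hch : ∀ x : S, ∃ i, ∃ a ∈ T i, G (k i) a = x.1 := fun x => x.2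
  choose I A hA hA' using hch
  let f : C → C := fun x => if h : x ∈ S then G (k (I ⟨x, h⟩)) (s _ (A ⟨x, h⟩)) else x
  have hf : ∀ x (h : x ∈ S), f x = G (k (I ⟨x, h⟩)) (s _ (A ⟨x, h⟩)) := fun x h => dif_pos h
  have hlt : ∀ x : S, x.1 < f x.1 := by
    intro x
    rw [hf _ x.2]
    calc x.1 = G (k (I x)) (A x) := (hA' x).symm
      _ < _ := hG _ ((hs _ (hinf _)).2 _)
  have haux : ∀ (c d : Cardinal.{u}) (_ : c = d) (_ : ℵ₀ ≤ c) (_ : StrictMono (G c))
      (a : c.ord.ToType) (b : d.ord.ToType), G c a < G d b → G c (s c a) < G d (s d b) := by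
    intro c d hcd hc hGc a b hab
    subst hcd
    exact hGc ((hs c hc).1 (hGc.lt_iff_lt.1 hab))
  refine ⟨S, f, ?_, fun x hx => (hlt ⟨x, hx⟩).ne', fun i => ?_⟩
  · intro x hx y hy hxy
    rw [hf x hx, hf y hy]
    have hx1 := hA' ⟨x, hx⟩
    have hy1 := hA' ⟨y, hy⟩
    have hx2 := hA ⟨x, hx⟩
    have hy2 := hA ⟨y, hy⟩
    by_cases he : k (I ⟨x, hx⟩) = k (I ⟨y, hy⟩)
    · exact haux _ _ he (hinf _) (hG _) _ _ (by rw [hx1, hy1]; exact hxy)
    · have h2 : y ∉ cut (G (k (I ⟨x, hx⟩))) := by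
        rcases cut_total (G (k (I ⟨x, hx⟩))) (G (k (I ⟨y, hy⟩))) with h3 | h3
        · have h4 : ¬ cut (G (k (I ⟨y, hy⟩))) ⊆ cut (G (k (I ⟨x, hx⟩))) :=
            fun h4 => he (h1 _ _ h3 h4)
          have h5 := hy2 _ h4
          rwa [hy1] at h5
        · have h4 : ¬ cut (G (k (I ⟨x, hx⟩))) ⊆ cut (G (k (I ⟨y, hy⟩))) :=
            fun h4 => he (h1 _ _ h4 h3)
          have h5 := hx2 _ h4
          rw [hx1] at h5
          exact absurd (show x ∈ cut (G (k (I ⟨y, hy⟩))) from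
            ⟨A ⟨y, hy⟩, by rw [hy1]; exact hxy.le⟩) h5
      have h3 : G (k (I ⟨x, hx⟩)) (s _ (A ⟨x, hx⟩)) < y := by
        by_contra hcon
        rw [not_lt] at hcon
        exact h2 ⟨_, hcon⟩
      have h4 := hlt ⟨y, hy⟩
      rw [hf y hy] at h4
      exact h3.trans h4
  · refine (hT i).trans ?_
    exact mk_le_of_injective (f := fun a : T i => (⟨G (k i) a.1, i, a.1, a.2, rfl⟩ : S))
      fun a b h => Subtype.ext ((hG i).injective (congrArg Subtype.val h))

theorem s_SUP : S_SUP.{u} := by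
  classical
  intro C _ κ hκ hC hcof hsucc hcopy
  obtain ⟨I, hI, hIc⟩ := Order.exists_cof_eq κ.ord.ToType
  rw [Ordinal.cof_toType] at hIc
  have hlim : ℵ₀ ≤ κ.ord.cof := by
    rw [Ordinal.aleph0_le_cof]
    exact isSuccLimit_ord hκ
  have h0 : ∀ i : κ.ord.ToType, ∃ m' < κ, max #(Iio i) κ.ord.cof ≤ m' ∧
      ∃ g : (Order.succ m').ord.ToType → C, StrictMono g := by
    intro i
    apply hcopy
    refine max_lt ?_ hcof
    have := mk_Iio_lt i (by rw [mk_ord_toType, Ordinal.type_toType])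
    rwa [mk_ord_toType] at this
  choose m hm hm' g hg using h0
  have hne : Nonempty C := by
    rw [← mk_ne_zero_iff, hC]
    exact ne_of_gt (aleph0_pos.trans_le hκ)
  let c0 : C := Classical.choice hne
  let k : I → Cardinal.{u} := fun i => Order.succ (m i.1)
  have hG : ∃ G : ∀ c : Cardinal.{u}, c.ord.ToType → C, ∀ i, StrictMono (G (k i)) := by
    have h1 : ∀ c : Cardinal.{u}, ∃ G : c.ord.ToType → C, c ∈ range k → StrictMono G := by
      intro c
      by_cases hc : c ∈ range k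
      · obtain ⟨i, rfl⟩ := hc
        exact ⟨g i.1, fun _ => hg i.1⟩
      · exact ⟨fun _ => c0, fun h => absurd h hc⟩
    choose G hG using h1
    exact ⟨G, fun i => hG _ (mem_range_self i)⟩
  obtain ⟨G, hG⟩ := hG
  have hinf : ∀ i, ℵ₀ ≤ m i := fun i => hlim.trans ((le_max_right _ _).trans (hm' i))
  obtain ⟨S, f, hf, hf', hS⟩ := main k (fun i => isRegular_succ (hinf _))
    (fun i => by
      rw [hIc]
      exact Order.lt_succ_of_le ((le_max_right _ _).trans (hm' i.1))) G hG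
  refine ⟨S, f, hf, ?_⟩
  have h2 : {x : C | x ∈ S ∧ f x ≠ x} = S := by
    ext x
    exact ⟨fun h => h.1, fun h => ⟨h, hf' x h⟩⟩
  rw [h2]
  refine le_antisymm ((mk_set_le S).trans hC.le) (not_lt.1 fun hlt => ?_)
  -- an element of `I` beyond `#S`
  have h3 : (#S).ord < Ordinal.type (α := κ.ord.ToType) (· < ·) := by
    rw [Ordinal.type_toType]
    exact ord_lt_ord.2 hlt
  obtain ⟨a, ha⟩ : ∃ a : κ.ord.ToType, #(Iio a) = #S := by
    refine ⟨Ordinal.enum (α := κ.ord.ToType) (· < ·) ⟨(#S).ord, h3⟩, ?_⟩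
    have h4 := Ordinal.card_typein (r := ((· < ·) : κ.ord.ToType → κ.ord.ToType → Prop))
      (Ordinal.enum (α := κ.ord.ToType) (· < ·) ⟨(#S).ord, h3⟩)
    rw [Ordinal.typein_enum, card_ord] at h4
    exact h4.symm
  obtain ⟨i, hi, hai⟩ := hI a
  have h5 : #S ≤ m i := by
    rw [← ha]
    exact (mk_le_mk_of_subset (Iio_subset_Iio hai)).trans ((le_max_left _ _).trans (hm' i))
  exact absurd ((hS ⟨i, hi⟩).trans h5) (not_le.2 (Order.lt_succ (m i)))

end Pool.Agent.L0h68.CH
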